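import Pool.Agent.R597.Scft
import Pool.Agent.R597.SP

/-!
# Forcing preserves winning strategies of II in the strong countable fan tightness game
-/

set_option autoImplicit false

namespace Pool.Agent.Results.MP_07c8c2_lc.StrongFanTightnessPreserved

open Pool.Agent.W868 Pool.Agent.W868.GM Pool.Agent.Y588 Pool.Agent.R597
open ZFSet (pair)

/-- Let `M` be a transitive model of ZFC, `P` a notion of forcing of `M` and `(X, τ)` a
topological space of `M`. -/
theorem result (M : Set ZFSet.{0}) (hM : IsZFC M) (P Le X τ : ZFSet.{0}) (hP : IsForcing M P Le)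
    (hX : IsTop M X τ) (h : ∀ x ∈ X, IIWins M X τ x) (G : ZFSet.{0}) (hG : IsGeneric M P Le G) :
    IsZFC (ext M G) ∧ ∀ x ∈ X, IIWins (ext M G) X τ x := by
  have hN := isZFC_ext hM hP hG
  exact ⟨hN, fun x hx => iiWins_up hM hN (sub_ext hM.toIsZF hP hG) hX.set_mem hX.top_mem
    (hM.trans _ hX.set_mem _ hx) hX.sub (h x hx)⟩

end Pool.Agent.Results.MP_07c8c2_lc.StrongFanTightnessPreserved
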